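import Mathlib

/-!
The strong gamma property and the game `G_1(⟨O_n⟩, Γ)`.

Sequences are indexed by `n = 0, 1, 2, ...`, so that the member with index `n` of a sequence of
covers has to be an `(n + 1)`-cover.
-/

namespace Pool.Agent.Results.MP_b9e574_gt.StrongGamma

open Set Filter

universe u

/-- The first `n` members of the sequence `p`, the latest first. -/
def hist {α : Type u} (p : ℕ → α) : ℕ → List α
  | 0 => []
  | n + 1 => p n :: hist p n

/-- `𝒰` is an open `n`-cover of `X`: it is a family of open sets, different from the whole space,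
it covers `X`, and every subset of `X` with exactly `n` elements lies in one of its members. -/
def IsNCover (X : Type u) [TopologicalSpace X] (n : ℕ) (𝒰 : Set (Set X)) : Prop :=
  (∀ U ∈ 𝒰, IsOpen U ∧ U ≠ univ) ∧ ⋃₀ 𝒰 = univ ∧
    ∀ F : Finset X, F.card = n → ∃ U ∈ 𝒰, (F : Set X) ⊆ U

/-- Every point belongs to all but finitely many of the sets `U n`. -/
def IsGamma {X : Type u} (U : ℕ → Set X) : Prop := ∀ x, ∀ᶠ n in atTop, x ∈ U n

/-- The selection principle `S_1(⟨O_n⟩, Γ)`. -/
def StrongGammaProperty (X : Type u) [TopologicalSpace X] : Prop :=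
  ∀ 𝒰 : ℕ → Set (Set X), (∀ n, IsNCover X (n + 1) (𝒰 n)) →
    ∃ U : ℕ → Set X, (∀ n, U n ∈ 𝒰 n) ∧ IsGamma U

/-- The list `h` (latest first) of answers of TWO is possible when ONE follows `σ`. -/
def Legal {X : Type u} (σ : List (Set X) → Set (Set X)) : List (Set X) → Prop
  | [] => True
  | U :: h => Legal σ h ∧ U ∈ σ h

/-- `σ` is a strategy of ONE in the game `G_1(⟨O_n⟩, Γ)`: after `n` innings, in which TWO has
given the answers in the list `h`, it plays an open `(n + 1)`-cover `σ h`. -/
def IsStrategy (X : Type u) [TopologicalSpace X] (σ : List (Set X) → Set (Set X)) : Prop :=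
  ∀ h, Legal σ h → IsNCover X (h.length + 1) (σ h)

/-- `σ` is a winning strategy of ONE: no play in which ONE follows `σ` is won by TWO. -/
def IsWinning (X : Type u) [TopologicalSpace X] (σ : List (Set X) → Set (Set X)) : Prop :=
  IsStrategy X σ ∧ ∀ U : ℕ → Set X, (∀ n, U n ∈ σ (hist U n)) → ¬ IsGamma U

/-! ### Auxiliary facts -/

theorem hist_length {α : Type u} (p : ℕ → α) (n : ℕ) : (hist p n).length = n := by
  induction n with
  | zero => rfl
  | succ n ih => simp [hist, ih]

theorem hist_eq_of {α : Type u} (d : α) (v : List α) (y : ℕ → α)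
    (h : ∀ i < v.length, y i = v.reverse.getD i d) : hist y v.length = v := by
  induction v with
  | nil => rfl
  | cons a w ih =>
    simp only [List.length_cons, hist, List.cons.injEq]
    constructor
    · rw [h w.length (by simp), List.reverse_cons, List.getD_append_right _ _ _ _ (by simp)]
      simp
    · apply ih
      intro i hi
      rw [h i (by simp; omega), List.reverse_cons, List.getD_append _ _ _ _ (by simpa using hi)]

theorem suffix_getD {α : Type u} (d : α) {a b : List α} (h : a <:+ b) (i : ℕ)
    (hi : i < a.length) : a.reverse.getD i d = b.reverse.getD i d := by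
  obtain ⟨c, rfl⟩ := h
  rw [List.reverse_append, List.getD_append _ _ _ _ (by simpa using hi)]

theorem exists_play {α : Type u} (T : ℕ → List α) (d : α) (h1 : ∀ n, T n <:+ T (n + 1))
    (h2 : ∀ n, n ≤ (T n).length) : ∃ z : ℕ → α, ∀ n, hist z (T n).length = T n := by
  have h3 : ∀ n m, n ≤ m → T n <:+ T m := by
    intro n m hnm
    induction m, hnm using Nat.le_induction with
    | base => exact List.suffix_refl _
    | succ m _ ih => exact ih.trans (h1 m)
  refine ⟨fun n => (T (n + 1)).reverse.getD n d, fun n => ?_⟩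
  apply hist_eq_of d
  intro i hi
  rcases le_total n (i + 1) with h | h
  · exact (suffix_getD d (h3 _ _ h) i hi).symm
  · exact suffix_getD d (h3 _ _ h) i (h2 (i + 1))

theorem hist_add {α : Type u} (p : ℕ → α) (k m : ℕ) :
    hist p (k + m) = hist (fun i => p (k + i)) m ++ hist p k := by
  induction m with
  | zero => rfl
  | succ m ih =>
    show p (k + m) :: hist p (k + m) = p (k + m) :: (hist (fun i => p (k + i)) m ++ hist p k)
    rw [ih]

theorem mem_hist {α : Type u} (p : ℕ → α) {i n : ℕ} (h : i < n) : p i ∈ hist p n := by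
  induction n with
  | zero => omega
  | succ n ih =>
    rcases Nat.lt_succ_iff_lt_or_eq.mp h with h1 | h1
    · exact List.mem_cons_of_mem _ (ih h1)
    · subst h1; exact List.mem_cons_self

theorem Legal.of_append {X : Type u} {σ : List (Set X) → Set (Set X)} {t s : List (Set X)}
    (h : Legal σ (t ++ s)) : Legal σ s := by
  induction t with
  | nil => exact h
  | cons a t ih => exact ih h.1

/-- The intersection of the sets in a list. -/
def It {X : Type u} (t : List (Set X)) : Set X := {x | ∀ U ∈ t, x ∈ U}

theorem isOpen_It {X : Type u} [TopologicalSpace X] (t : List (Set X)) (h : ∀ U ∈ t, IsOpen U) :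
    IsOpen (It t) := by
  induction t with
  | nil =>
    have : It ([] : List (Set X)) = univ := by ext x; simp [It]
    rw [this]; exact isOpen_univ
  | cons a t ih =>
    have : It (a :: t) = a ∩ It t := by ext x; simp [It]
    rw [this]
    exact (h a List.mem_cons_self).inter (ih fun U hU => h U (List.mem_cons_of_mem _ hU))

section Main

variable {X : Type u} [TopologicalSpace X] {σ : List (Set X) → Set (Set X)}

theorem Legal.mem_open (hσ : IsStrategy X σ) {t s : List (Set X)} (h : Legal σ (t ++ s)) :
    ∀ U ∈ t, IsOpen U ∧ U ≠ univ := by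
  induction t with
  | nil => intro U hU; simp at hU
  | cons a t ih =>
    intro U hU
    rcases List.mem_cons.mp hU with rfl | hU
    · exact (hσ _ h.1).1 _ h.2
    · exact ih h.1 U hU

theorem exists_legal [Nonempty X] (hσ : IsStrategy X σ) (n : ℕ) : ∃ h, Legal σ h ∧ h.length = n := by
  induction n with
  | zero => exact ⟨[], trivial, rfl⟩
  | succ n ih =>
    obtain ⟨h, h1, h2⟩ := ih
    obtain ⟨x⟩ := ‹Nonempty X›
    have hx : x ∈ ⋃₀ σ h := by rw [(hσ h h1).2.1]; exact mem_univ x
    obtain ⟨U, hU, _⟩ := hx
    exact ⟨U :: h, ⟨h1, hU⟩, by simp [h2]⟩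

/-- A finite set is covered by the members of long legal extensions. -/
theorem cover_path [Infinite X] (hσ : IsStrategy X σ) {s : List (Set X)} (hs : Legal σ s)
    (F : Finset X) (hF : F.card ≤ s.length + 1) (l : ℕ) :
    ∃ t : List (Set X), t.length = l ∧ Legal σ (t ++ s) ∧ (F : Set X) ⊆ It t := by
  induction l with
  | zero => exact ⟨[], rfl, hs, fun x _ U hU => by simp at hU⟩
  | succ l ih =>
    obtain ⟨t, h1, h2, h3⟩ := ih
    obtain ⟨F', hFF', hF'⟩ := Infinite.exists_superset_card_eq F ((t ++ s).length + 1) (by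
      rw [List.length_append]; omega)
    obtain ⟨U, hU, hFU⟩ := (hσ _ h2).2.2 F' hF'
    refine ⟨U :: t, by simp [h1], ⟨h2, hU⟩, fun x hx V hV => ?_⟩
    rcases List.mem_cons.mp hV with rfl | hV
    · exact hFU (hFF' hx)
    · exact h3 hx V hV

/-- Finitely many extensions of every length catch all small sets. -/
theorem exists_catch [Infinite X] (hX : StrongGammaProperty X) (hσ : IsStrategy X σ)
    {s : List (Set X)} (hs : Legal σ s) :
    ∃ D : ℕ → Set (List (Set X)), (∀ l, (D l).Finite) ∧
      (∀ l, ∀ t ∈ D l, t.length = l + 1 ∧ Legal σ (t ++ s)) ∧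
      ∀ F : Finset X, F.card ≤ s.length + 1 → ∃ l, ∃ t ∈ D l, (F : Set X) ⊆ It t := by
  classical
  by_cases hfin : ∃ (l : ℕ) (c : Set (List (Set X))), c.Finite ∧
      (∀ t ∈ c, t.length = l + 1 ∧ Legal σ (t ++ s)) ∧
      ∀ F : Finset X, F.card ≤ s.length + 1 → ∃ t ∈ c, (F : Set X) ⊆ It t
  · obtain ⟨l, c, h1, h2, h3⟩ := hfin
    refine ⟨fun i => if i = l then c else ∅, fun i => ?_, fun i t ht => ?_, fun F hF => ?_⟩
    · by_cases hi : i = l
      · simp only [hi, if_true]; exact h1
      · simp only [hi, if_false]; exact finite_empty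
    · by_cases hi : i = l
      · subst hi; simp only [if_true] at ht; exact h2 t ht
      · simp only [hi, if_false] at ht; exact absurd ht (notMem_empty t)
    · obtain ⟨t, ht, hFt⟩ := h3 F hF
      exact ⟨l, t, by simpa using ht, hFt⟩
  · let WW : ℕ → Set (Set X) := fun l => {W | IsOpen W ∧ ∃ c : Set (List (Set X)), c.Finite ∧
      (∀ t ∈ c, t.length = l + 1 ∧ Legal σ (t ++ s)) ∧
      ∀ F : Finset X, F.card ≤ s.length + 1 → (F : Set X) ⊆ W → ∃ t ∈ c, (F : Set X) ⊆ It t}
    have hne : ∀ l, ∀ W ∈ WW l, W ≠ univ := by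
      rintro l W ⟨_, c, h1, h2, h3⟩ rfl
      exact hfin ⟨l, c, h1, h2, fun F hF => h3 F hF (subset_univ _)⟩
    have homega : ∀ l (G : Finset X), ∃ W ∈ WW l, (G : Set X) ⊆ W := by
      intro l G
      have h1 : ∀ F : Finset X, ∃ t : List (Set X), F.card ≤ s.length + 1 →
          t.length = l + 1 ∧ Legal σ (t ++ s) ∧ (F : Set X) ⊆ It t := by
        intro F
        by_cases hF : F.card ≤ s.length + 1
        · obtain ⟨t, ht⟩ := cover_path hσ hs F hF (l + 1)
          exact ⟨t, fun _ => ht⟩
        · exact ⟨[], fun h => absurd h hF⟩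
      choose f hf using h1
      let GG : Finset (Finset X) := G.powerset.filter fun F => F.card ≤ s.length + 1
      let c : Set (List (Set X)) := f '' (GG : Set (Finset X))
      have hc : c.Finite := (Finset.finite_toSet GG).image f
      have hc2 : ∀ t ∈ c, t.length = l + 1 ∧ Legal σ (t ++ s) := by
        rintro t ⟨F, hF, rfl⟩
        have := (Finset.mem_filter.mp (Finset.mem_coe.mp hF)).2
        exact ⟨(hf F this).1, (hf F this).2.1⟩
      refine ⟨⋃ x ∈ G, ⋂ t ∈ {t ∈ c | x ∈ It t}, It t, ⟨?_, c, hc, hc2, ?_⟩, ?_⟩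
      · refine isOpen_biUnion fun x _ => (hc.subset (sep_subset c _)).isOpen_biInter fun t ht => ?_
        exact isOpen_It t fun U hU => (Legal.mem_open hσ (hc2 t ht.1).2 U hU).1
      · intro F hF hFW
        have h2 : ∀ y : X, ∃ x : X, y ∈ F → x ∈ G ∧ ∀ t ∈ c, x ∈ It t → y ∈ It t := by
          intro y
          by_cases hy : y ∈ F
          · have h3 := hFW hy
            simp only [mem_iUnion, mem_iInter] at h3
            obtain ⟨x, hx, h4⟩ := h3
            exact ⟨x, fun _ => ⟨hx, fun t ht hxt => h4 t ⟨ht, hxt⟩⟩⟩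
          · exact ⟨y, fun h => absurd h hy⟩
        choose g hg using h2
        have h5 : F.image g ∈ GG := by
          rw [Finset.mem_filter, Finset.mem_powerset]
          refine ⟨fun x hx => ?_, Finset.card_image_le.trans hF⟩
          obtain ⟨y, hy, rfl⟩ := Finset.mem_image.mp hx
          exact (hg y hy).1
        refine ⟨f (F.image g), ⟨F.image g, Finset.mem_coe.mpr h5, rfl⟩, fun y hy => ?_⟩
        apply (hg y hy).2 _ ⟨F.image g, Finset.mem_coe.mpr h5, rfl⟩
        exact (hf (F.image g) (Finset.card_image_le.trans hF)).2.2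
          (Finset.mem_coe.mpr (Finset.mem_image_of_mem g hy))
      · intro x hx
        refine mem_biUnion hx ?_
        simp only [mem_iInter]
        exact fun t ht => ht.2
    obtain ⟨W, hW, hWg⟩ := hX WW (fun n => ⟨fun W hW => ⟨hW.1, hne n W hW⟩, by
      ext x
      simp only [mem_sUnion, mem_univ, iff_true]
      obtain ⟨W, hW, hxW⟩ := homega n {x}
      exact ⟨W, hW, hxW (by simp)⟩, fun F _ => homega n F⟩)
    choose hWo c hc1 hc2 hc3 using hW
    refine ⟨c, hc1, hc2, fun F hF => ?_⟩
    have h1 : ∀ᶠ n in atTop, ∀ x ∈ F, x ∈ W n := by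
      rw [Filter.eventually_all_finset]
      exact fun x _ => hWg x
    obtain ⟨n, hn⟩ := h1.exists
    obtain ⟨t, ht, hFt⟩ := hc3 n F hF hn
    exact ⟨n, t, ht, hFt⟩

/-- The finitely branching set of histories. -/
inductive InD (D : List (Set X) → ℕ → Set (List (Set X))) : List (Set X) → Prop
  | nil : InD D []
  | step (s t : List (Set X)) (l : ℕ) : InD D s → t ∈ D s l → InD D (t ++ s)

/-- Beating a strategy of ONE. -/
theorem exists_win [Infinite X] (hX : StrongGammaProperty X) (hσ : IsStrategy X σ) :
    ∃ U : ℕ → Set X, (∀ n, U n ∈ σ (hist U n)) ∧ IsGamma U := by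
  classical
  have hcat : ∀ s : List (Set X), ∃ D : ℕ → Set (List (Set X)), Legal σ s → (∀ l, (D l).Finite) ∧
      (∀ l, ∀ t ∈ D l, t.length = l + 1 ∧ Legal σ (t ++ s)) ∧
      ∀ F : Finset X, F.card ≤ s.length + 1 → ∃ l, ∃ t ∈ D l, (F : Set X) ⊆ It t := by
    intro s
    by_cases hs : Legal σ s
    · obtain ⟨D, hD⟩ := exists_catch hX hσ hs
      exact ⟨D, fun _ => hD⟩
    · exact ⟨fun _ => ∅, fun h => absurd h hs⟩
  choose D hD using hcat
  have hlegal : ∀ s, InD D s → Legal σ s := by
    intro s hs
    induction hs with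
    | nil => trivial
    | step s t l _ ht ih => exact ((hD s ih).2.1 l t ht).2
  have hfinite : ∀ n, {s | InD D s ∧ s.length = n}.Finite := by
    intro n
    induction n using Nat.strong_induction_on with
    | _ n ih =>
      have hsub : {s | InD D s ∧ s.length = n} ⊆ {[]} ∪ ⋃ k ∈ Iio n,
          ⋃ s ∈ {s | InD D s ∧ s.length = k}, (fun t => t ++ s) '' (D s (n - k - 1)) := by
        rintro e ⟨he, hlen⟩
        cases he with
        | nil => exact Or.inl rfl
        | step s t l hs ht =>
          right
          have h1 := ((hD s (hlegal s hs)).2.1 l t ht).1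
          rw [List.length_append] at hlen
          have h2 : s.length < n := by omega
          refine mem_biUnion (show s.length ∈ Iio n from h2) ?_
          refine mem_biUnion (show s ∈ {s' | InD D s' ∧ s'.length = s.length} from ⟨hs, rfl⟩) ?_
          refine ⟨t, ?_, rfl⟩
          have h3 : n - s.length - 1 = l := by omega
          rw [h3]
          exact ht
      refine Finite.subset ((finite_singleton _).union ?_) hsub
      refine (finite_Iio n).biUnion fun k hk => (ih k hk).biUnion fun s hs => ?_
      exact ((hD s (hlegal s hs.1)).1 _).image _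
  -- the covers to which the selection principle is applied
  let PP : ℕ → Set (Set X) := fun m => {O | ∃ R : List (Set X) → List (Set X),
    (∀ s, InD D s → s.length = m → ∃ l, R s ∈ D s l) ∧
      O = ⋂ s ∈ {s | InD D s ∧ s.length = m}, It (R s)}
  have hPP : ∀ m (F : Finset X), F.card ≤ m + 1 → ∃ O ∈ PP m, (F : Set X) ⊆ O := by
    intro m F hF
    have h1 : ∀ s : List (Set X), ∃ t : List (Set X), InD D s → s.length = m →
        (∃ l, t ∈ D s l) ∧ (F : Set X) ⊆ It t := by
      intro s
      by_cases hs : InD D s ∧ s.length = m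
      · obtain ⟨l, t, ht, hFt⟩ := (hD s (hlegal s hs.1)).2.2 F (by rw [hs.2]; exact hF)
        exact ⟨t, fun _ _ => ⟨⟨l, ht⟩, hFt⟩⟩
      · exact ⟨[], fun h h' => absurd ⟨h, h'⟩ hs⟩
    choose R hR using h1
    refine ⟨_, ⟨R, fun s hs hm => (hR s hs hm).1, rfl⟩, ?_⟩
    intro x hx
    simp only [mem_iInter]
    exact fun s hs => (hR s hs.1 hs.2).2 hx
  have hleg := fun n => exists_legal hσ n
  choose hh hh1 hh2 using hleg
  let QQ : ℕ → Set (Set X) := fun m => if ∃ s, InD D s ∧ s.length = m then PP m else σ (hh m)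
  have hQQ : ∀ m, IsNCover X (m + 1) (QQ m) := by
    intro m
    by_cases hm : ∃ s, InD D s ∧ s.length = m
    · have hQ : QQ m = PP m := by simp only [QQ, if_pos hm]
      rw [hQ]
      obtain ⟨s, hs, hsm⟩ := hm
      refine ⟨?_, ?_, fun F hF => hPP m F hF.le⟩
      · rintro O ⟨R, hR, rfl⟩
        constructor
        · refine (hfinite m).isOpen_biInter fun s hs => ?_
          obtain ⟨l, hl⟩ := hR s hs.1 hs.2
          exact isOpen_It _ fun U hU =>
            (Legal.mem_open hσ ((hD s (hlegal s hs.1)).2.1 l _ hl).2 U hU).1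
        · intro huniv
          obtain ⟨l, hl⟩ := hR s hs hsm
          have h1 := (hD s (hlegal s hs)).2.1 l _ hl
          obtain ⟨U, hU⟩ : ∃ U, U ∈ R s := by
            cases hRs : R s with
            | nil => rw [hRs] at h1; simp at h1
            | cons U t => exact ⟨U, List.mem_cons_self⟩
          apply (Legal.mem_open hσ h1.2 U hU).2
          apply eq_univ_of_forall
          intro x
          have hx : x ∈ ⋂ s ∈ {s | InD D s ∧ s.length = m}, It (R s) := by
            rw [huniv]; exact mem_univ x
          simp only [mem_iInter] at hx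
          exact hx s ⟨hs, hsm⟩ U hU
      · ext x
        simp only [mem_sUnion, mem_univ, iff_true]
        obtain ⟨O, hO, hxO⟩ := hPP m {x} (by simp)
        exact ⟨O, hO, hxO (by simp)⟩
    · have hQ : QQ m = σ (hh m) := by simp only [QQ, if_neg hm]
      rw [hQ]
      have := hσ (hh m) (hh1 m)
      rwa [hh2 m] at this
  obtain ⟨O, hO, hOg⟩ := hX QQ hQQ
  have hR : ∀ m, ∃ R : List (Set X) → List (Set X), (∃ s, InD D s ∧ s.length = m) →
      (∀ s, InD D s → s.length = m → ∃ l, R s ∈ D s l) ∧
        O m = ⋂ s ∈ {s | InD D s ∧ s.length = m}, It (R s) := by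
    intro m
    by_cases hm : ∃ s, InD D s ∧ s.length = m
    · have h1 := hO m
      have hQ : QQ m = PP m := by simp only [QQ, if_pos hm]
      rw [hQ] at h1
      obtain ⟨R, hR1, hR2⟩ := h1
      exact ⟨R, fun _ => ⟨hR1, hR2⟩⟩
    · exact ⟨id, fun h => absurd h hm⟩
  choose R hR using hR
  let S : ℕ → List (Set X) := fun j => Nat.rec [] (fun _ s => R s.length s ++ s) j
  have hS : ∀ j, S (j + 1) = R (S j).length (S j) ++ S j := fun j => rfl
  have hSD : ∀ j, InD D (S j) := by
    intro j
    induction j with
    | zero => exact InD.nil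
    | succ j ih =>
      obtain ⟨l, hl⟩ := (hR (S j).length ⟨S j, ih, rfl⟩).1 (S j) ih rfl
      rw [hS]
      exact InD.step _ _ l ih hl
  have hSlen : ∀ j, (S j).length < (S (j + 1)).length := by
    intro j
    obtain ⟨l, hl⟩ := (hR (S j).length ⟨S j, hSD j, rfl⟩).1 (S j) (hSD j) rfl
    have h1 := ((hD (S j) (hlegal _ (hSD j))).2.1 l _ hl).1
    rw [hS, List.length_append]
    omega
  have hSge : ∀ j, j ≤ (S j).length := by
    intro j
    induction j with
    | zero => exact Nat.zero_le _
    | succ j ih => have := hSlen j; omega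
  obtain ⟨U, hU⟩ := exists_play S ∅ (fun j => by rw [hS]; exact List.suffix_append _ _) hSge
  refine ⟨U, ?_, ?_⟩
  · intro n
    have h1 : Legal σ (hist U (n + 1)) := by
      have h2 := hlegal _ (hSD (n + 1))
      rw [← hU (n + 1)] at h2
      obtain ⟨k, hk⟩ := Nat.exists_eq_add_of_le (hSge (n + 1))
      rw [hk, hist_add] at h2
      exact h2.of_append
    exact h1.2
  · intro x
    obtain ⟨M, hM⟩ := eventually_atTop.mp (hOg x)
    rw [eventually_atTop]
    refine ⟨(S M).length, fun n hn => ?_⟩
    -- the segment containing `n`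
    have hex : ∃ j, n < (S j).length := ⟨n + 1, lt_of_lt_of_le (Nat.lt_succ_self n) (hSge (n + 1))⟩
    have hj1 := Nat.find_spec hex
    have hj0 : Nat.find hex ≠ 0 := by
      intro h0
      rw [h0] at hj1
      exact absurd hj1 (Nat.not_lt_zero n)
    obtain ⟨j, hj⟩ := Nat.exists_eq_succ_of_ne_zero hj0
    have hj2 : (S j).length ≤ n := by
      have := Nat.find_min hex (m := j) (by omega)
      omega
    rw [hj, Nat.succ_eq_add_one] at hj1
    have hmono : StrictMono fun j => (S j).length := strictMono_nat_of_lt_succ hSlen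
    have hMj : M ≤ j := by
      by_contra hcon
      have h1 : j + 1 ≤ M := by omega
      have h2 : (S (j + 1)).length ≤ (S M).length := hmono.monotone h1
      omega
    have hxO := hM (S j).length (hMj.trans (hSge j))
    have hR2 := (hR (S j).length ⟨S j, hSD j, rfl⟩).2
    rw [hR2] at hxO
    simp only [mem_iInter] at hxO
    have hxR := hxO (S j) ⟨hSD j, rfl⟩
    apply hxR
    -- `U n` belongs to the new segment
    obtain ⟨k, hk⟩ := Nat.exists_eq_add_of_le (hSlen j).le
    have h3 := hU (j + 1)
    rw [hk, hist_add, hU j, hS] at h3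
    have h4 := List.append_cancel_right h3
    rw [← h4]
    have h5 : U n = (fun i => U ((S j).length + i)) (n - (S j).length) := by
      show U n = U ((S j).length + (n - (S j).length))
      congr 1
      omega
    rw [h5]
    exact mem_hist _ (by omega)

end Main

/-- For every topological space `X`: `S_1(⟨O_n⟩, Γ)` holds if and only if ONE has no winning
strategy in the game `G_1(⟨O_n⟩, Γ)`. -/
theorem result (X : Type u) [TopologicalSpace X] :
    StrongGammaProperty X ↔ ¬ ∃ σ : List (Set X) → Set (Set X), IsWinning X σ := by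
  classical
  constructor
  · rintro hX ⟨σ, hσ, hwin⟩
    rcases isEmpty_or_nonempty X with hE | hN
    · obtain ⟨U, hU, _⟩ := hX (fun _ => ∅) (fun n => ⟨fun U hU => absurd hU (notMem_empty U),
        by ext x; exact (IsEmpty.false x).elim, fun F hF => by
          have : F = ∅ := Finset.eq_empty_of_isEmpty F
          rw [this] at hF
          simp at hF⟩)
      exact notMem_empty _ (hU 0)
    rcases finite_or_infinite X with hF | hI
    · have _ := Fintype.ofFinite X
      obtain ⟨h, h1, h2⟩ := exists_legal hσ (Fintype.card X - 1)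
      have h3 := hσ h h1
      have h4 : h.length + 1 = (Finset.univ : Finset X).card := by
        have := Fintype.card_pos (α := X)
        rw [h2, Finset.card_univ]
        omega
      obtain ⟨U, hU, hsub⟩ := h3.2.2 Finset.univ h4.symm
      apply (h3.1 U hU).2
      rw [Finset.coe_univ] at hsub
      exact univ_subset_iff.mp hsub
    · obtain ⟨U, hU1, hU2⟩ := exists_win hX hσ
      exact hwin U hU1 hU2
  · intro hno
    by_contra hX
    unfold StrongGammaProperty at hX
    push Not at hX
    obtain ⟨𝒰, h1, h2⟩ := hX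
    refine hno ⟨fun h => 𝒰 h.length, fun h _ => h1 h.length, fun U hU => ?_⟩
    refine h2 U fun n => ?_
    have := hU n
    simpa [hist_length] using this

end Pool.Agent.Results.MP_b9e574_gt.StrongGamma
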